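import Mathlib

/-!
# A plane semi-algebraic `3`-uniform Ramsey number that is not polynomial

For a polynomial `f` in `6` real variables and a sequence `v_1, ..., v_N` of points of the plane,
`edges f v` is the `3`-uniform hypergraph in which `{v_i, v_j, v_k}`, `i < j < k`, is an edge iff
`f (v_i, v_j, v_k) ≥ 0`.  `ramsey f s n` is the semi-algebraic Ramsey number `R_f^{(3)}(s, n)`.
We exhibit `f` such that `R_f^{(3)}(4, n)` grows faster than every polynomial in `n`.
-/

open Finset

namespace Pool.Agent.Results.MP_654b32_co.SuperpolyRamsey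

/-! ### The definitions used in the statement -/

/-- The value of `f` at three points `u`, `v`, `w` of the plane. -/
noncomputable def value (f : MvPolynomial (Fin 6) ℝ) (u v w : ℝ × ℝ) : ℝ :=
  MvPolynomial.eval ![u.1, u.2, v.1, v.2, w.1, w.2] f

/-- The edge set of the `3`-uniform hypergraph `H` on the points `v 0, ..., v (N - 1)` (identified
with their indices): the triples `{i, j, k}` with `i < j < k` and `f (v i, v j, v k) ≥ 0`. -/
def edges (f : MvPolynomial (Fin 6) ℝ) {N : ℕ} (v : Fin N → ℝ × ℝ) : Set (Finset (Fin N)) :=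
  {e | ∃ i j k : Fin N, i < j ∧ j < k ∧ e = {i, j, k} ∧ 0 ≤ value f (v i) (v j) (v k)}

/-- A clique: a vertex set all of whose `3`-subsets are edges. -/
def IsClique {N : ℕ} (H : Set (Finset (Fin N))) (S : Finset (Fin N)) : Prop :=
  ∀ e ⊆ S, e.card = 3 → e ∈ H

/-- An independent set: a vertex set containing no edge. -/
def IsIndependent {N : ℕ} (H : Set (Finset (Fin N))) (S : Finset (Fin N)) : Prop :=
  ∀ e ∈ H, ¬ e ⊆ S

/-- Every hypergraph obtained from `f` from any `N` distinct points of the plane (in any order)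
contains a clique on `s` vertices or an independent set on `n` vertices. -/
def Arrows (f : MvPolynomial (Fin 6) ℝ) (s n N : ℕ) : Prop :=
  ∀ v : Fin N → ℝ × ℝ, Function.Injective v →
    (∃ S : Finset (Fin N), S.card = s ∧ IsClique (edges f v) S) ∨
    (∃ S : Finset (Fin N), S.card = n ∧ IsIndependent (edges f v) S)

/-- The semi-algebraic Ramsey number `R_f^{(3)}(s, n)`: the least `N` with `Arrows f s n N`
(such `N` exist, see `arrows_exists`). -/
noncomputable def ramsey (f : MvPolynomial (Fin 6) ℝ) (s n : ℕ) : ℕ :=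
  sInf {N : ℕ | Arrows f s n N}

/-! ### Ramsey's theorem -/

/-- Ramsey's theorem for `r`-uniform colourings. -/
theorem ramsey_exists (r : ℕ) : ∀ s n : ℕ, ∃ N : ℕ, ∀ {α : Type} [DecidableEq α] (A : Finset α)
    (c : Finset α → Prop), N ≤ A.card →
    (∃ S ⊆ A, S.card = s ∧ ∀ T ⊆ S, T.card = r → c T) ∨
    (∃ S ⊆ A, S.card = n ∧ ∀ T ⊆ S, T.card = r → ¬ c T) := by
  induction r with
  | zero =>
    intro s n
    refine ⟨max s n, ?_⟩
    intro α _ A c hA
    by_cases h : c ∅
    · obtain ⟨S, hS, hc⟩ := Finset.exists_subset_card_eq (le_trans (le_max_left s n) hA)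
      refine Or.inl ⟨S, hS, hc, ?_⟩
      intro T _ hT
      rw [Finset.card_eq_zero] at hT
      rw [hT]; exact h
    · obtain ⟨S, hS, hc⟩ := Finset.exists_subset_card_eq (le_trans (le_max_right s n) hA)
      refine Or.inr ⟨S, hS, hc, ?_⟩
      intro T _ hT
      rw [Finset.card_eq_zero] at hT
      rw [hT]; exact h
  | succ r ih =>
    intro s
    induction s with
    | zero =>
      intro n
      refine ⟨0, ?_⟩
      intro α _ A c _
      refine Or.inl ⟨∅, Finset.empty_subset _, rfl, ?_⟩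
      intro T hT hc
      rw [Finset.subset_empty] at hT
      subst hT
      simp at hc
    | succ s ihs =>
      intro n
      induction n with
      | zero =>
        refine ⟨0, ?_⟩
        intro α _ A c _
        refine Or.inr ⟨∅, Finset.empty_subset _, rfl, ?_⟩
        intro T hT hc
        rw [Finset.subset_empty] at hT
        subst hT
        simp at hc
      | succ n ihn =>
        obtain ⟨N1, h1⟩ := ihs (n + 1)
        obtain ⟨N2, h2⟩ := ihn
        obtain ⟨M, hM⟩ := ih N1 N2
        refine ⟨M + 1, ?_⟩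
        intro α _ A c hA
        have hne : A.Nonempty := by
          rw [← Finset.card_pos]; omega
        obtain ⟨x, hx⟩ := hne
        have hcard : M ≤ (A.erase x).card := by
          rw [Finset.card_erase_of_mem hx]; omega
        -- helper: extension of a monochromatic set by x
        have ext : ∀ (P : Finset α → Prop) (S' S'' : Finset α), S' ⊆ A.erase x → S'' ⊆ S' →
            (∀ T ⊆ S', T.card = r → P (insert x T)) →
            (∀ T ⊆ S'', T.card = r + 1 → P T) →
            ∀ T ⊆ insert x S'', T.card = r + 1 → P T := by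
          intro P S' S'' hS' hS'' hP1 hP2 T hT hTc
          by_cases hxT : x ∈ T
          · have : T = insert x (T.erase x) := (Finset.insert_erase hxT).symm
            rw [this]
            apply hP1
            · intro y hy
              rw [Finset.mem_erase] at hy
              have := hT hy.2
              rw [Finset.mem_insert] at this
              exact hS'' (this.resolve_left hy.1)
            · rw [Finset.card_erase_of_mem hxT]; omega
          · apply hP2 T _ hTc
            intro y hy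
            have := hT hy
            rw [Finset.mem_insert] at this
            exact this.resolve_left (fun h => hxT (h ▸ hy))
        have hxn : ∀ S'' : Finset α, S'' ⊆ A.erase x → x ∉ S'' := by
          intro S'' h hxS
          exact (Finset.mem_erase.mp (h hxS)).1 rfl
        rcases hM (A.erase x) (fun T => c (insert x T)) hcard with ⟨S', hS'A, hS'c, hS'⟩ |
          ⟨S', hS'A, hS'c, hS'⟩
        · rcases h1 S' c (le_of_eq hS'c.symm) with ⟨S'', hS''S, hS''c, hS''⟩ |
            ⟨S'', hS''S, hS''c, hS''⟩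
          · refine Or.inl ⟨insert x S'', ?_, ?_, ?_⟩
            · intro y hy
              rw [Finset.mem_insert] at hy
              rcases hy with rfl | hy
              · exact hx
              · exact Finset.mem_of_mem_erase (hS'A (hS''S hy))
            · rw [Finset.card_insert_of_notMem (hxn S'' (hS''S.trans hS'A)), hS''c]
            · exact ext c S' S'' hS'A hS''S hS' hS''
          · exact Or.inr ⟨S'', (hS''S.trans hS'A).trans (Finset.erase_subset _ _), hS''c, hS''⟩
        · rcases h2 S' c (le_of_eq hS'c.symm) with ⟨S'', hS''S, hS''c, hS''⟩ |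
            ⟨S'', hS''S, hS''c, hS''⟩
          · exact Or.inl ⟨S'', (hS''S.trans hS'A).trans (Finset.erase_subset _ _), hS''c, hS''⟩
          · refine Or.inr ⟨insert x S'', ?_, ?_, ?_⟩
            · intro y hy
              rw [Finset.mem_insert] at hy
              rcases hy with rfl | hy
              · exact hx
              · exact Finset.mem_of_mem_erase (hS'A (hS''S hy))
            · rw [Finset.card_insert_of_notMem (hxn S'' (hS''S.trans hS'A)), hS''c]
            · exact ext (fun T => ¬ c T) S' S'' hS'A hS''S hS' hS''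

/-! ### The polynomial as a function of the differences -/

/-- real form of the polynomial -/
def F (p q P Q : ℝ) : ℝ :=
  P * ((P^3*q^4 - p^5*Q^2) * (p^4*Q^2 - P^3*q^3)) -
    p * ((P^3*q^4 + p^5*Q^2) * (p^4*Q^2 + P^3*q^3))

theorem F_nonneg {p q P Q : ℝ} (hp : 0 < p) (hq : 0 < q) (hP : 0 < P) (hQ : 0 < Q)
    (h1 : 4 * (p^5*Q^2) ≤ P^3*q^4) (h2 : 4 * (P^3*q^3) ≤ p^4*Q^2) (h3 : 4 * p ≤ P) :
    0 ≤ F p q P Q := by
  unfold F
  set M1 := P^3*q^4 with hM1
  set M2 := p^5*Q^2 with hM2
  set M3 := p^4*Q^2 with hM3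
  set M4 := P^3*q^3 with hM4
  have p1 : 0 < M1 := by positivity
  have p2 : 0 < M2 := by positivity
  have p3 : 0 < M3 := by positivity
  have p4 : 0 < M4 := by positivity
  have a1 : 3/4 * M1 ≤ M1 - M2 := by linarith
  have a2 : 3/4 * M3 ≤ M3 - M4 := by linarith
  have b1 : M1 + M2 ≤ 5/4 * M1 := by linarith
  have b2 : M3 + M4 ≤ 5/4 * M3 := by linarith
  have c1 : (3/4 * M1) * (3/4 * M3) ≤ (M1 - M2) * (M3 - M4) :=
    mul_le_mul a1 a2 (by positivity) (by linarith)
  have c2 : (M1 + M2) * (M3 + M4) ≤ (5/4 * M1) * (5/4 * M3) :=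
    mul_le_mul b1 b2 (by positivity) (by positivity)
  have d1 : (4 * p) * ((3/4 * M1) * (3/4 * M3)) ≤ P * ((M1 - M2) * (M3 - M4)) :=
    mul_le_mul h3 c1 (by positivity) (by linarith)
  have d2 : p * ((M1 + M2) * (M3 + M4)) ≤ p * ((5/4 * M1) * (5/4 * M3)) :=
    mul_le_mul_of_nonneg_left c2 hp.le
  have e1 : 0 < p * (M1 * M3) := by positivity
  nlinarith

theorem F_neg {p q P Q : ℝ} (hp : 0 < p) (hq : 0 < q) (hP : 0 < P) (hQ : 0 < Q)
    (hpq : p < q) (h : 0 ≤ F p q P Q) :
    p ≤ P ∧ p^5*Q^2 ≤ P^3*q^4 ∧ P^3*q^3 ≤ p^4*Q^2 := by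
  unfold F at h
  have q1 : P^3*q^4 = q * (P^3*q^3) := by ring
  have q2 : p^5*Q^2 = p * (p^4*Q^2) := by ring
  set M1 := P^3*q^4 with hM1
  set M2 := p^5*Q^2 with hM2
  set M3 := p^4*Q^2 with hM3
  set M4 := P^3*q^3 with hM4
  have p1 : 0 < M1 := by positivity
  have p2 : 0 < M2 := by positivity
  have p3 : 0 < M3 := by positivity
  have p4 : 0 < M4 := by positivity
  have g1 : 0 < (M1 + M2) * (M3 + M4) := by positivity
  have g2 : 0 < p * ((M1 + M2) * (M3 + M4)) := by positivity
  have g3 : 0 < P * ((M1 - M2) * (M3 - M4)) := by linarith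
  have g4 : 0 < (M1 - M2) * (M3 - M4) := (pos_iff_pos_of_mul_pos g3).mp hP
  have g5 : (M1 - M2) * (M3 - M4) ≤ (M1 + M2) * (M3 + M4) := by nlinarith
  constructor
  · by_contra hlt
    push Not at hlt
    have : P * ((M1 - M2) * (M3 - M4)) < p * ((M1 + M2) * (M3 + M4)) :=
      mul_lt_mul hlt g5 g4 hp.le
    linarith
  · rcases pos_and_pos_or_neg_and_neg_of_mul_pos g4 with ⟨h1, h2⟩ | ⟨h1, h2⟩
    · exact ⟨by linarith, by linarith⟩
    · exfalso
      -- M1 < M2, M3 < M4 : q M4 < p M3 < p M4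
      have k1 : q * M4 < p * M3 := by rw [← q1, ← q2]; linarith
      have k2 : p * M3 < p * M4 := mul_lt_mul_of_pos_left (by linarith) hp
      have k3 : p * M4 < q * M4 := mul_lt_mul_of_pos_right hpq p4
      linarith

theorem exp_le {B : ℝ} (hB : 2^20 ≤ B) {m n : ℕ} (h : B ^ m ≤ 2^15 * B ^ n) : m ≤ n := by
  have hB1 : 1 < B := by linarith
  have hB0 : 0 < B := by linarith
  have h1 : B ^ m < B ^ (n + 1) := by
    have : 0 < B ^ n := by positivity
    rw [pow_succ]
    nlinarith
  have := (pow_lt_pow_iff_right₀ hB1).mp h1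
  omega

/-- comparison of scales -/
def Near (B x : ℝ) (m : ℕ) : Prop := B ^ m / 2 ≤ x ∧ x ≤ 2 * B ^ m

theorem Near.pos {B x : ℝ} {m : ℕ} (hB : 0 < B) (h : Near B x m) : 0 < x := by
  have : 0 < B ^ m := by positivity
  unfold Near at h
  linarith [h.1]

theorem nec {B : ℝ} (hB : 2^20 ≤ B) {av lv au lu : ℕ} (hlv : 0 < lv) {p q P Q : ℝ}
    (hp : Near B p (av + 2 * lv)) (hq : Near B q (av + 3 * lv))
    (hP : Near B P (au + 2 * lu)) (hQ : Near B Q (au + 3 * lu))
    (h : 0 ≤ F p q P Q) :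
    av + 2 * lv ≤ au + 2 * lu ∧ au + lv ≤ av ∧ av ≤ au + 2 * lv := by
  have hB0 : 0 < B := by linarith
  have hB1 : 1 ≤ B := by linarith
  have hp0 := hp.pos hB0
  have hq0 := hq.pos hB0
  have hP0 := hP.pos hB0
  have hQ0 := hQ.pos hB0
  have hpq : p < q := by
    have h1 : B ^ (av + 2 * lv) * B ≤ B ^ (av + 3 * lv) := by
      rw [← pow_succ]
      apply pow_le_pow_right₀ hB1
      omega
    have h2 := hp.2
    have h3 := hq.1
    have : 0 < B ^ (av + 2 * lv) := by positivity
    nlinarith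
  obtain ⟨h1, h2, h3⟩ := F_neg hp0 hq0 hP0 hQ0 hpq h
  obtain ⟨p1, p2⟩ := hp
  obtain ⟨q1, q2⟩ := hq
  obtain ⟨P1, P2⟩ := hP
  obtain ⟨Q1, Q2⟩ := hQ
  refine ⟨?_, ?_, ?_⟩
  · apply exp_le hB
    have : 0 < B ^ (au + 2 * lu) := by positivity
    linarith
  · -- P^3 q^3 ≤ p^4 Q^2
    have k : 3 * (au + 2 * lu) + 3 * (av + 3 * lv) ≤ 4 * (av + 2 * lv) + 2 * (au + 3 * lu) := by
      apply exp_le hB
      have e1 : (B ^ (au + 2 * lu) / 2)^3 * (B ^ (av + 3 * lv) / 2)^3 ≤ P^3 * q^3 := by
        gcongr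
      have e2 : p^4 * Q^2 ≤ (2 * B ^ (av + 2 * lv))^4 * (2 * B ^ (au + 3 * lu))^2 := by
        gcongr
      have e3 : (B ^ (au + 2 * lu) / 2)^3 * (B ^ (av + 3 * lv) / 2)^3
        = B ^ (3 * (au + 2 * lu) + 3 * (av + 3 * lv)) / 64 := by
        ring
      have e4 : (2 * B ^ (av + 2 * lv))^4 * (2 * B ^ (au + 3 * lu))^2
        = 64 * B ^ (4 * (av + 2 * lv) + 2 * (au + 3 * lu)) := by
        ring
      have : 0 < B ^ (4 * (av + 2 * lv) + 2 * (au + 3 * lu)) := by positivity
      linarith
    omega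
  · -- p^5 Q^2 ≤ P^3 q^4
    have k : 5 * (av + 2 * lv) + 2 * (au + 3 * lu) ≤ 3 * (au + 2 * lu) + 4 * (av + 3 * lv) := by
      apply exp_le hB
      have e1 : (B ^ (av + 2 * lv) / 2)^5 * (B ^ (au + 3 * lu) / 2)^2 ≤ p^5 * Q^2 := by
        gcongr
      have e2 : P^3 * q^4 ≤ (2 * B ^ (au + 2 * lu))^3 * (2 * B ^ (av + 3 * lv))^4 := by
        gcongr
      have e3 : (B ^ (av + 2 * lv) / 2)^5 * (B ^ (au + 3 * lu) / 2)^2
        = B ^ (5 * (av + 2 * lv) + 2 * (au + 3 * lu)) / 128 := by
        ring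
      have e4 : (2 * B ^ (au + 2 * lu))^3 * (2 * B ^ (av + 3 * lv))^4
        = 128 * B ^ (3 * (au + 2 * lu) + 4 * (av + 3 * lv)) := by
        ring
      have : 0 < B ^ (3 * (au + 2 * lu) + 4 * (av + 3 * lv)) := by positivity
      linarith
    omega

theorem scale_le {B : ℝ} (hB : 2^20 ≤ B) {m n : ℕ} (h : m < n) : 2^20 * B ^ m ≤ B ^ n := by
  have hB0 : 0 < B := by linarith
  have hB1 : 1 ≤ B := by linarith
  have h1 : B ^ (m + 1) ≤ B ^ n := pow_le_pow_right₀ hB1 h
  have : 0 < B ^ m := by positivity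
  rw [pow_succ] at h1
  nlinarith

theorem suf {B : ℝ} (hB : 2^20 ≤ B) {av lv au lu : ℕ} {p q P Q : ℝ}
    (hp : Near B p (av + 2 * lv)) (hq : Near B q (av + 3 * lv))
    (hP : Near B P (au + 2 * lu)) (hQ : Near B Q (au + 3 * lu))
    (h1 : av + 2 * lv < au + 2 * lu) (h2 : au + lv < av) (h3 : av < au + 2 * lv) :
    0 ≤ F p q P Q := by
  have hB0 : 0 < B := by linarith
  have hB1 : 1 ≤ B := by linarith
  have hp0 := hp.pos hB0
  have hq0 := hq.pos hB0
  have hP0 := hP.pos hB0
  have hQ0 := hQ.pos hB0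
  obtain ⟨p1, p2⟩ := hp
  obtain ⟨q1, q2⟩ := hq
  obtain ⟨P1, P2⟩ := hP
  obtain ⟨Q1, Q2⟩ := hQ
  apply F_nonneg hp0 hq0 hP0 hQ0
  · have e1 : p^5 * Q^2 ≤ (2 * B ^ (av + 2 * lv))^5 * (2 * B ^ (au + 3 * lu))^2 := by
      gcongr
    have e2 : (B ^ (au + 2 * lu) / 2)^3 * (B ^ (av + 3 * lv) / 2)^4 ≤ P^3 * q^4 := by
      gcongr
    have e3 : (2 * B ^ (av + 2 * lv))^5 * (2 * B ^ (au + 3 * lu))^2
        = 128 * B ^ (5 * (av + 2 * lv) + 2 * (au + 3 * lu)) := by
      ring
    have e4 : (B ^ (au + 2 * lu) / 2)^3 * (B ^ (av + 3 * lv) / 2)^4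
        = B ^ (3 * (au + 2 * lu) + 4 * (av + 3 * lv)) / 128 := by
      ring
    have k : 5 * (av + 2 * lv) + 2 * (au + 3 * lu) < 3 * (au + 2 * lu) + 4 * (av + 3 * lv) := by
      omega
    have := scale_le hB k
    have : 0 < B ^ (5 * (av + 2 * lv) + 2 * (au + 3 * lu)) := by positivity
    linarith
  · have e1 : P^3 * q^3 ≤ (2 * B ^ (au + 2 * lu))^3 * (2 * B ^ (av + 3 * lv))^3 := by
      gcongr
    have e2 : (B ^ (av + 2 * lv) / 2)^4 * (B ^ (au + 3 * lu) / 2)^2 ≤ p^4 * Q^2 := by
      gcongr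
    have e3 : (2 * B ^ (au + 2 * lu))^3 * (2 * B ^ (av + 3 * lv))^3
        = 64 * B ^ (3 * (au + 2 * lu) + 3 * (av + 3 * lv)) := by
      ring
    have e4 : (B ^ (av + 2 * lv) / 2)^4 * (B ^ (au + 3 * lu) / 2)^2
        = B ^ (4 * (av + 2 * lv) + 2 * (au + 3 * lu)) / 64 := by
      ring
    have k : 3 * (au + 2 * lu) + 3 * (av + 3 * lv) < 4 * (av + 2 * lv) + 2 * (au + 3 * lu) := by
      omega
    have := scale_le hB k
    have : 0 < B ^ (3 * (au + 2 * lu) + 3 * (av + 3 * lv)) := by positivity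
    linarith
  · have := scale_le hB h1
    have : 0 < B ^ (av + 2 * lv) := by positivity
    linarith

/-! ### Coordinate sums -/

theorem two_sum_range_le (B : ℝ) (hB : 3 ≤ B) (n : ℕ) :
    2 * ∑ k ∈ Finset.range n, B ^ k ≤ B ^ n := by
  induction n with
  | zero => simp
  | succ n ih =>
    rw [Finset.sum_range_succ, pow_succ]
    have : 0 < B ^ n := by positivity
    nlinarith

theorem two_sum_pow_le (B : ℝ) (hB : 3 ≤ B) {V : Type} [DecidableEq V] (g : V → ℕ)
    (hg : Function.Injective g) (n : ℕ) (W : Finset V) (hW : ∀ w ∈ W, g w < n) :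
    2 * ∑ w ∈ W, B ^ (g w) ≤ B ^ n := by
  have hB0 : 0 < B := by linarith
  have h1 : ∑ w ∈ W, B ^ (g w) = ∑ k ∈ W.image g, B ^ k := by
    rw [Finset.sum_image]
    intro a _ b _ h
    exact hg h
  have h2 : ∑ k ∈ W.image g, B ^ k ≤ ∑ k ∈ Finset.range n, B ^ k := by
    apply Finset.sum_le_sum_of_subset_of_nonneg
    · intro k hk
      rw [Finset.mem_image] at hk
      obtain ⟨w, hw, rfl⟩ := hk
      exact Finset.mem_range.mpr (hW w hw)
    · intro k _ _
      positivity
  have h3 := two_sum_range_le B hB n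
  rw [h1]; linarith

/-- `v` is the first level at which the leaves `x` and `y` differ, and `x` goes left there. -/
def Split {V : Type} (e : V → ℕ) (x y : Finset V) (v : V) : Prop :=
  v ∉ x ∧ v ∈ y ∧ ∀ w, e v < e w → (w ∈ x ↔ w ∈ y)

/-- coordinate sum -/
def S {V : Type} (B : ℝ) (g : V → ℕ) (x : Finset V) : ℝ := ∑ w ∈ x, B ^ (g w)

theorem split_diff {V : Type} [Fintype V] [DecidableEq V] (B : ℝ) (hB : 3 ≤ B) (e g : V → ℕ)
    (he : Function.Injective e) (hg : Function.Injective g) (hmono : ∀ u v, e u < e v → g u < g v)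
    {x y : Finset V} {v : V} (h : Split e x y v) :
    B ^ (g v) / 2 ≤ S B g y - S B g x ∧ S B g y - S B g x ≤ 2 * B ^ (g v) := by
  obtain ⟨hvx, hvy, hw⟩ := h
  have hB0 : 0 < B := by linarith
  -- decompose
  have key : ∀ z : Finset V, S B g z = ∑ w ∈ z with e v < e w, B ^ (g w)
      + ∑ w ∈ z with w = v, B ^ (g w) + ∑ w ∈ z with e w < e v, B ^ (g w) := by
    intro z
    unfold S
    rw [← Finset.sum_union, ← Finset.sum_union]
    · apply Finset.sum_congr _ (fun _ _ => rfl)
      ext w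
      simp only [Finset.mem_union, Finset.mem_filter]
      constructor
      · intro hwz
        rcases lt_trichotomy (e w) (e v) with h | h | h
        · right; exact ⟨hwz, h⟩
        · left; right; exact ⟨hwz, he h⟩
        · left; left; exact ⟨hwz, h⟩
      · rintro ((h | h) | h) <;> exact h.1
    · rw [Finset.disjoint_left]
      intro w hw1 hw2
      simp only [Finset.mem_union, Finset.mem_filter] at hw1 hw2
      rcases hw1 with h | h
      · exact absurd (lt_trans h.2 hw2.2) (lt_irrefl _)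
      · rw [h.2] at hw2; exact absurd hw2.2 (lt_irrefl _)
    · rw [Finset.disjoint_left]
      intro w hw1 hw2
      simp only [Finset.mem_filter] at hw1 hw2
      rw [hw2.2] at hw1; exact absurd hw1.2 (lt_irrefl _)
  have top : (x.filter fun w => e v < e w) = (y.filter fun w => e v < e w) := by
    ext w
    simp only [Finset.mem_filter]
    constructor
    · rintro ⟨h1, h2⟩; exact ⟨(hw w h2).mp h1, h2⟩
    · rintro ⟨h1, h2⟩; exact ⟨(hw w h2).mpr h1, h2⟩
  have midx : (x.filter fun w => w = v) = ∅ := by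
    ext w
    simp only [Finset.mem_filter, Finset.notMem_empty, iff_false]
    rintro ⟨h1, rfl⟩; exact hvx h1
  have midy : (y.filter fun w => w = v) = {v} := by
    ext w
    simp only [Finset.mem_filter, Finset.mem_singleton]
    constructor
    · rintro ⟨_, h⟩; exact h
    · rintro rfl; exact ⟨hvy, rfl⟩
  have low : ∀ z : Finset V, 0 ≤ ∑ w ∈ z with e w < e v, B ^ (g w) ∧
      2 * ∑ w ∈ z with e w < e v, B ^ (g w) ≤ B ^ (g v) := by
    intro z
    refine ⟨Finset.sum_nonneg (fun w _ => by positivity), ?_⟩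
    apply two_sum_pow_le B hB g hg
    intro w hwz
    exact hmono _ _ (Finset.mem_filter.mp hwz).2
  rw [key x, key y, top, midx, midy, Finset.sum_empty, Finset.sum_singleton]
  have l1 := low x
  have l2 := low y
  have : 0 < B ^ g v := by positivity
  constructor <;> linarith

theorem exists_split {V : Type} [Fintype V] [DecidableEq V] (B : ℝ) (hB : 3 ≤ B) (e : V → ℕ)
    (he : Function.Injective e) {x y : Finset V} (h : S B e x < S B e y) :
    ∃ v, Split e x y v := by
  have hB0 : 0 < B := by linarith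
  have hne : x ≠ y := by rintro rfl; exact lt_irrefl _ h
  have hne2 : (symmDiff x y).Nonempty := by
    rw [Finset.nonempty_iff_ne_empty]
    intro h0
    exact hne (symmDiff_eq_bot.mp h0)
  obtain ⟨v, hv, hmax⟩ := Finset.exists_max_image _ e hne2
  have agree : ∀ w, e v < e w → (w ∈ x ↔ w ∈ y) := by
    intro w hw
    by_contra hcon
    have : w ∈ symmDiff x y := by
      rw [Finset.mem_symmDiff]
      tauto
    exact absurd (hmax w this) (not_le.mpr hw)
  rw [Finset.mem_symmDiff] at hv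
  rcases hv with ⟨hvx, hvy⟩ | ⟨hvy, hvx⟩
  · exfalso
    have hs : Split e y x v := ⟨hvy, hvx, fun w hw => (agree w hw).symm⟩
    have := (split_diff B hB e e he he (fun _ _ h => h) hs).1
    have : 0 < B ^ e v := by positivity
    linarith
  · exact ⟨v, hvx, hvy, agree⟩

/-! ### The hypergraph of the leaves -/

theorem mem_edges {f : MvPolynomial (Fin 6) ℝ} {N : ℕ} {v : Fin N → ℝ × ℝ} {i j k : Fin N}
    (hij : i < j) (hjk : j < k) :
    ({i, j, k} : Finset (Fin N)) ∈ edges f v ↔ 0 ≤ value f (v i) (v j) (v k) := by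
  constructor
  · rintro ⟨i', j', k', h1, h2, h3, h4⟩
    have a1 : i' ∈ ({i, j, k} : Finset (Fin N)) := by rw [h3]; simp
    have a2 : j' ∈ ({i, j, k} : Finset (Fin N)) := by rw [h3]; simp
    have a3 : k' ∈ ({i, j, k} : Finset (Fin N)) := by rw [h3]; simp
    have b1 : i ∈ ({i', j', k'} : Finset (Fin N)) := by rw [← h3]; simp
    have b2 : j ∈ ({i', j', k'} : Finset (Fin N)) := by rw [← h3]; simp
    have b3 : k ∈ ({i', j', k'} : Finset (Fin N)) := by rw [← h3]; simp
    simp only [Finset.mem_insert, Finset.mem_singleton, Fin.ext_iff] at a1 a2 a3 b1 b2 b3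
    simp only [Fin.lt_def] at h1 h2 hij hjk
    have c1 : i = i' := by rw [Fin.ext_iff]; omega
    have c2 : j = j' := by rw [Fin.ext_iff]; omega
    have c3 : k = k' := by rw [Fin.ext_iff]; omega
    rw [c1, c2, c3]; exact h4
  · intro h
    exact ⟨i, j, k, hij, hjk, rfl, h⟩

open MvPolynomial in
/-- the polynomial -/
noncomputable def poly : MvPolynomial (Fin 6) ℝ :=
  (X 4 - X 2) * (((X 4 - X 2)^3*(X 3 - X 1)^4 - (X 2 - X 0)^5*(X 5 - X 3)^2) *
      ((X 2 - X 0)^4*(X 5 - X 3)^2 - (X 4 - X 2)^3*(X 3 - X 1)^3)) -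
    (X 2 - X 0) * (((X 4 - X 2)^3*(X 3 - X 1)^4 + (X 2 - X 0)^5*(X 5 - X 3)^2) *
      ((X 2 - X 0)^4*(X 5 - X 3)^2 + (X 4 - X 2)^3*(X 3 - X 1)^3))

theorem value_poly (u v w : ℝ × ℝ) :
    value poly u v w = F (v.1 - u.1) (v.2 - u.2) (w.1 - v.1) (w.2 - v.2) := by
  simp [value, poly, F, Fin.isValue]

section geometry

variable {V : Type} [Fintype V] [DecidableEq V] (a l : V → ℕ)

/-- consistency of the two orders of the levels -/
def Ordered (a l : V → ℕ) : Prop := ∀ u v, u ≠ v →
  (a u + 2 * l u < a v + 2 * l v ∧ a u + 3 * l u < a v + 3 * l v) ∨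
  (a v + 2 * l v < a u + 2 * l u ∧ a v + 3 * l v < a u + 3 * l u)

/-- abbreviations -/
def ee (v : V) : ℕ := a v + 2 * l v
def dd (v : V) : ℕ := a v + 3 * l v

variable {a l}

omit [Fintype V] in
theorem Ordered.inj_e (h : Ordered a l) : Function.Injective (ee a l) := by
  intro u v huv
  by_contra hne
  unfold ee at huv
  rcases h u v hne with h | h <;> omega

omit [Fintype V] in
theorem Ordered.inj_d (h : Ordered a l) : Function.Injective (dd a l) := by
  intro u v huv
  by_contra hne
  unfold dd at huv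
  rcases h u v hne with h | h <;> omega

omit [Fintype V] [DecidableEq V] in
theorem Ordered.mono (h : Ordered a l) (u v : V) (huv : ee a l u < ee a l v) :
    dd a l u < dd a l v := by
  have hne : u ≠ v := by rintro rfl; exact lt_irrefl _ huv
  unfold ee dd at *
  rcases h u v hne with h | h <;> omega

/-- the point of a leaf -/
noncomputable def pt (B : ℝ) (a l : V → ℕ) (x : Finset V) : ℝ × ℝ :=
  (S B (ee a l) x, S B (dd a l) x)

variable {B : ℝ} (hB : 2^20 ≤ B)
include hB

theorem near_fst (h : Ordered a l) {x y : Finset V} {v : V} (hs : Split (ee a l) x y v) :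
    Near B ((pt B a l y).1 - (pt B a l x).1) (a v + 2 * l v) :=
  split_diff B (by linarith) (ee a l) (ee a l) h.inj_e h.inj_e (fun _ _ h => h) hs

theorem near_snd (h : Ordered a l) {x y : Finset V} {v : V} (hs : Split (ee a l) x y v) :
    Near B ((pt B a l y).2 - (pt B a l x).2) (a v + 3 * l v) :=
  split_diff B (by linarith) (ee a l) (dd a l) h.inj_e h.inj_d h.mono hs

theorem value_nec (h : Ordered a l) (hl : ∀ v, 0 < l v) {x y z : Finset V} {u v : V}
    (hxy : Split (ee a l) x y v) (hyz : Split (ee a l) y z u)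
    (hv : 0 ≤ value poly (pt B a l x) (pt B a l y) (pt B a l z)) :
    a v + 2 * l v < a u + 2 * l u ∧ a u + l v ≤ a v ∧ a v ≤ a u + 2 * l v := by
  rw [value_poly] at hv
  have := nec (hB) (hl v) (near_fst hB h hxy) (near_snd hB h hxy) (near_fst hB h hyz)
    (near_snd hB h hyz) hv
  refine ⟨lt_of_le_of_ne this.1 ?_, this.2⟩
  intro heq
  have : v = u := h.inj_e heq
  subst this
  exact hyz.1 hxy.2.1

theorem value_suf (h : Ordered a l) {x y z : Finset V} {u v : V}
    (hxy : Split (ee a l) x y v) (hyz : Split (ee a l) y z u)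
    (h1 : a v + 2 * l v < a u + 2 * l u) (h2 : a u + l v < a v) (h3 : a v < a u + 2 * l v) :
    0 ≤ value poly (pt B a l x) (pt B a l y) (pt B a l z) := by
  rw [value_poly]
  exact suf (hB) (near_fst hB h hxy) (near_snd hB h hxy) (near_fst hB h hyz)
    (near_snd hB h hyz) h1 h2 h3

/-- ordering of the leaves by the first coordinate -/
theorem exists_enum (h : Ordered a l) (N : ℕ) (hN : N = 2 ^ Fintype.card V) :
    ∃ φ : Fin N ≃ Finset V, StrictMono (fun i => (pt B a l (φ i)).1) := by
  have hcard : Fintype.card (Finset V) = N := by rw [hN]; exact Fintype.card_finset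
  let φ0 : Fin N ≃ Finset V := (Fintype.equivFinOfCardEq hcard).symm
  let g : Fin N → ℝ := fun i => (pt B a l (φ0 i)).1
  refine ⟨(Tuple.sort g).trans φ0, ?_⟩
  have hmono : Monotone (g ∘ Tuple.sort g) := Tuple.monotone_sort g
  apply hmono.strictMono_of_injective
  apply Function.Injective.comp _ (Tuple.sort g).injective
  intro i j hij
  apply φ0.injective
  by_contra hne
  -- distinct leaves have distinct first coordinates
  have hne2 : (symmDiff (φ0 i) (φ0 j)).Nonempty := by
    rw [Finset.nonempty_iff_ne_empty]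
    intro h0
    exact hne (symmDiff_eq_bot.mp h0)
  obtain ⟨v, hv, hmax⟩ := Finset.exists_max_image _ (ee a l) hne2
  have agree : ∀ w, ee a l v < ee a l w → (w ∈ φ0 i ↔ w ∈ φ0 j) := by
    intro w hw
    by_contra hcon
    have : w ∈ symmDiff (φ0 i) (φ0 j) := by
      rw [Finset.mem_symmDiff]
      tauto
    exact absurd (hmax w this) (not_le.mpr hw)
  have hB0 : 0 < B := by linarith
  have hpos : 0 < B ^ (a v + 2 * l v) := by positivity
  rw [Finset.mem_symmDiff] at hv
  rcases hv with ⟨hvx, hvy⟩ | ⟨hvy, hvx⟩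
  · have hs : Split (ee a l) (φ0 j) (φ0 i) v := ⟨hvy, hvx, fun w hw => (agree w hw).symm⟩
    have := (near_fst hB h hs).1
    have hij' : (pt B a l (φ0 i)).1 = (pt B a l (φ0 j)).1 := hij
    rw [hij'] at this
    linarith
  · have hs : Split (ee a l) (φ0 i) (φ0 j) v := ⟨hvx, hvy, agree⟩
    have := (near_fst hB h hs).1
    have hij' : (pt B a l (φ0 i)).1 = (pt B a l (φ0 j)).1 := hij
    rw [hij'] at this
    linarith

theorem construction (h : Ordered a l) (hl : ∀ v, 0 < l v) (adj : V → V → Prop)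
    [DecidableRel adj]
    (hadj : ∀ u v, adj u v → a v + 2 * l v < a u + 2 * l u ∧ a u + l v < a v ∧
      a v < a u + 2 * l v)
    (n N : ℕ) (hN : N = 2 ^ Fintype.card V)
    (hn : (Finset.univ.filter (fun I : Finset V => ∀ u ∈ I, ∀ v ∈ I, ¬ adj u v)).card < n) :
    ∃ pts : Fin N → ℝ × ℝ, Function.Injective pts ∧
      (¬ ∃ S : Finset (Fin N), S.card = 4 ∧ IsClique (edges poly pts) S) ∧
      (¬ ∃ S : Finset (Fin N), S.card = n ∧
        IsIndependent (edges poly pts) S) := by
  obtain ⟨φ, hφ⟩ := exists_enum hB h N hN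
  have hsp : ∀ i j, i < j → ∃ v, Split (ee a l) (φ i) (φ j) v := by
    intro i j hij
    exact exists_split B (by linarith) (ee a l) h.inj_e (hφ hij)
  have hlt : ∀ i j v, Split (ee a l) (φ i) (φ j) v → i < j := by
    intro i j v hs
    have h1 := (near_fst hB h hs).1
    have hB0 : 0 < B := by linarith
    have hpos : 0 < B ^ (a v + 2 * l v) := by positivity
    have h2 : (pt B a l (φ i)).1 < (pt B a l (φ j)).1 := by linarith
    exact hφ.lt_iff_lt.mp h2
  refine ⟨fun i => pt B a l (φ i), ?_, ?_, ?_⟩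
  · intro i j hij
    apply hφ.injective
    exact congrArg Prod.fst hij
  · rintro ⟨S, hS4, hS⟩
    let o := S.orderEmbOfFin hS4
    have hm : ∀ i, o i ∈ S := fun i => Finset.orderEmbOfFin_mem S hS4 i
    have h01 : o 0 < o 1 := o.strictMono (by decide)
    have h12 : o 1 < o 2 := o.strictMono (by decide)
    have h23 : o 2 < o 3 := o.strictMono (by decide)
    have hedge : ∀ i j k, i ∈ S → j ∈ S → k ∈ S → i < j → j < k →
        0 ≤ value poly (pt B a l (φ i)) (pt B a l (φ j)) (pt B a l (φ k)) := by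
      intro i j k hi hj hk hij hjk
      have hsub : ({i, j, k} : Finset _) ⊆ S := by
        intro t ht
        simp only [Finset.mem_insert, Finset.mem_singleton] at ht
        rcases ht with rfl | rfl | rfl <;> assumption
      have hc : ({i, j, k} : Finset (Fin N)).card = 3 := by
        rw [Finset.card_eq_three]
        exact ⟨i, j, k, hij.ne, (hij.trans hjk).ne, hjk.ne, rfl⟩
      exact (mem_edges (f := poly) (v := fun i => pt B a l (φ i)) hij hjk).mp (hS _ hsub hc)
    obtain ⟨c, hc⟩ := hsp _ _ h01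
    obtain ⟨b, hb⟩ := hsp _ _ h12
    obtain ⟨t, ht⟩ := hsp _ _ h23
    have e1 := value_nec hB h hl hc hb (hedge _ _ _ (hm 0) (hm 1) (hm 2) h01 h12)
    have e2 := value_nec hB h hl hb ht (hedge _ _ _ (hm 1) (hm 2) (hm 3) h12 h23)
    -- split of o 1 and o 3 at t
    have hbt : ee a l b < ee a l t := e2.1
    have ht' : Split (ee a l) (φ (o 1)) (φ (o 3)) t := by
      refine ⟨fun hmem => ht.1 ((hb.2.2 t hbt).mp hmem), ht.2.1, ?_⟩
      intro w hw
      exact (hb.2.2 w (hbt.trans hw)).trans (ht.2.2 w hw)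
    have e3 := value_nec hB h hl hc ht' (hedge _ _ _ (hm 0) (hm 1) (hm 3) h01 (h12.trans h23))
    omega
  · rintro ⟨S, hSn, hS⟩
    have hedge : ∀ i j k, i ∈ S → j ∈ S → k ∈ S → i < j → j < k →
        ¬ 0 ≤ value poly (pt B a l (φ i)) (pt B a l (φ j)) (pt B a l (φ k)) := by
      intro i j k hi hj hk hij hjk hcon
      have hsub : ({i, j, k} : Finset _) ⊆ S := by
        intro t ht
        simp only [Finset.mem_insert, Finset.mem_singleton] at ht
        rcases ht with rfl | rfl | rfl <;> assumption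
      exact hS _ ((mem_edges (f := poly) (v := fun i => pt B a l (φ i)) hij hjk).mpr hcon) hsub
    classical
    let L : Fin N → Finset V := fun i =>
      Finset.univ.filter (fun u => ∃ k ∈ S, Split (ee a l) (φ i) (φ k) u)
    have hle : S.card ≤
        (Finset.univ.filter (fun I : Finset V => ∀ u ∈ I, ∀ v ∈ I, ¬ adj u v)).card := by
      apply Finset.card_le_card_of_injOn L
      · intro i hi
        rw [Finset.mem_coe, Finset.mem_filter]
        refine ⟨Finset.mem_univ _, ?_⟩
        intro u hu v hv huv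
        simp only [L, Finset.mem_filter, Finset.mem_univ, true_and] at hu hv
        obtain ⟨k, hk, hsu⟩ := hu
        obtain ⟨j, hj, hsv⟩ := hv
        obtain ⟨c1, c2, c3⟩ := hadj u v huv
        have hvu : ee a l v < ee a l u := c1
        have hs2 : Split (ee a l) (φ j) (φ k) u := by
          refine ⟨fun hmem => hsu.1 ((hsv.2.2 u hvu).mpr hmem), hsu.2.1, ?_⟩
          intro w hw
          exact (hsv.2.2 w (hvu.trans hw)).symm.trans (hsu.2.2 w hw)
        exact hedge i j k hi hj hk (hlt _ _ _ hsv) (hlt _ _ _ hs2)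
          (value_suf hB h hsv hs2 c1 c2 c3)
      · intro i hi j hj hij
        by_contra hne
        have aux : ∀ i j, i ∈ S → j ∈ S → L i = L j → i < j → False := by
          intro i j hi hj hij hlt'
          obtain ⟨u, hu⟩ := hsp i j hlt'
          have h1 : u ∈ L i := by
            simp only [L, Finset.mem_filter, Finset.mem_univ, true_and]
            exact ⟨j, hj, hu⟩
          rw [hij] at h1
          simp only [L, Finset.mem_filter, Finset.mem_univ, true_and] at h1
          obtain ⟨k, _, hk⟩ := h1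
          exact hk.1 hu.2.1
        rcases lt_or_gt_of_ne hne with hlt' | hlt'
        · exact aux i j hi hj hij hlt'
        · exact aux j i hj hi hij.symm hlt'
    omega

end geometry

/-! ### Counting independent sets -/

open Classical in
/-- positions not hit by `I` -/
noncomputable def avail {V D : Type} [Fintype D] (hit : V → D → Prop) (I : Finset V) : Finset D :=
  Finset.univ.filter (fun b => ∀ v ∈ I, ¬ hit v b)

open Classical in
/-- independent sets -/
noncomputable def ind {V : Type} [Fintype V] (adj : V → V → Prop) : Finset (Finset V) :=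
  Finset.univ.filter (fun I => ∀ u ∈ I, ∀ v ∈ I, ¬ adj u v)

noncomputable def Z {V D : Type} [Fintype V] [Fintype D] (hit : V → D → Prop)
    (adj : V → V → Prop) (c : ℕ) : ℕ :=
  ∑ I ∈ ind adj, 2 ^ (c * (avail hit I).card)

def hit' {V D : Type} (hit : V → D → Prop) : D ⊕ (V ⊕ V) → D ⊕ D → Prop
  | Sum.inl _, Sum.inl _ => False
  | Sum.inl _, Sum.inr _ => True
  | Sum.inr (Sum.inl v), Sum.inl b => hit v b
  | Sum.inr (Sum.inl _), Sum.inr _ => False
  | Sum.inr (Sum.inr _), Sum.inl _ => False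
  | Sum.inr (Sum.inr v), Sum.inr b => hit v b

def adj' {V D : Type} (hit : V → D → Prop) (adj : V → V → Prop) :
    D ⊕ (V ⊕ V) → D ⊕ (V ⊕ V) → Prop
  | Sum.inl _, Sum.inl _ => False
  | Sum.inl b, Sum.inr (Sum.inl v) => hit v b
  | Sum.inl _, Sum.inr (Sum.inr _) => False
  | Sum.inr _, Sum.inl _ => False
  | Sum.inr (Sum.inl u), Sum.inr (Sum.inl v) => adj u v
  | Sum.inr (Sum.inl _), Sum.inr (Sum.inr _) => False
  | Sum.inr (Sum.inr _), Sum.inr (Sum.inl _) => False
  | Sum.inr (Sum.inr u), Sum.inr (Sum.inr v) => adj u v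

section step
variable {V D : Type} [Fintype V] [Fintype D] (hit : V → D → Prop) (adj : V → V → Prop)

theorem avail_card (J : Finset (D ⊕ (V ⊕ V))) :
    (avail (hit' hit) J).card =
      (avail hit J.toRight.toLeft).card +
        (if J.toLeft.card = 0 then (avail hit J.toRight.toRight).card else 0) := by
  classical
  have h1 : (avail (hit' hit) J).card = (avail (hit' hit) J).toLeft.card
      + (avail (hit' hit) J).toRight.card := by
    rw [Finset.card_toLeft_add_card_toRight]
  rw [h1]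
  have h2 : (avail (hit' hit) J).toLeft = avail hit J.toRight.toLeft := by
    ext b
    simp only [avail, Finset.mem_toLeft, Finset.mem_filter, Finset.mem_univ, true_and,
      Finset.mem_toRight]
    constructor
    · intro h v hv
      exact h _ hv
    · intro h v hv
      rcases v with b' | v | v
      · exact fun h => h
      · exact h v hv
      · exact fun h => h
  rw [h2]
  congr 1
  split_ifs with hT
  · rw [Finset.card_eq_zero] at hT
    congr 1
    ext b
    simp only [avail, Finset.mem_filter, Finset.mem_univ, true_and,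
      Finset.mem_toRight]
    constructor
    · intro h v hv
      exact h _ hv
    · intro h v hv
      rcases v with b' | v | v
      · exfalso
        have : b' ∈ J.toLeft := by rw [Finset.mem_toLeft]; exact hv
        rw [hT] at this
        simp at this
      · exact fun h => h
      · exact h v hv
  · rw [Finset.card_eq_zero] at hT ⊢
    rw [Finset.eq_empty_iff_forall_notMem]
    intro b hb
    obtain ⟨b', hb'⟩ := Finset.nonempty_iff_ne_empty.mpr hT
    rw [Finset.mem_toLeft] at hb'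
    simp only [avail, Finset.mem_filter, Finset.mem_univ, true_and,
      Finset.mem_toRight] at hb
    exact hb _ hb' trivial

theorem mem_ind' (J : Finset (D ⊕ (V ⊕ V))) (hJ : J ∈ ind (adj' hit adj)) :
    J.toRight.toLeft ∈ ind adj ∧ J.toRight.toRight ∈ ind adj ∧
      J.toLeft ⊆ avail hit J.toRight.toLeft := by
  classical
  simp only [ind, Finset.mem_filter, Finset.mem_univ, true_and] at hJ ⊢
  refine ⟨?_, ?_, ?_⟩
  · intro u hu v hv
    simp only [Finset.mem_toLeft, Finset.mem_toRight] at hu hv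
    exact hJ _ hu _ hv
  · intro u hu v hv
    simp only [Finset.mem_toRight] at hu hv
    exact hJ _ hu _ hv
  · intro b hb
    simp only [avail, Finset.mem_filter, Finset.mem_univ, true_and]
    intro v hv
    simp only [Finset.mem_toLeft, Finset.mem_toRight] at hb hv
    exact hJ _ hb _ hv

theorem Z_step (c : ℕ) :
    Z (hit' hit) (adj' hit adj) c ≤ Z hit adj c ^ 2 + Z hit adj (c + 1) * Z hit adj 0 := by
  classical
  let Ψ : Finset (D ⊕ (V ⊕ V)) → (Σ _ : Finset V × Finset V, Finset D) := fun J =>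
    ⟨(J.toRight.toLeft, J.toRight.toRight), J.toLeft⟩
  have hΨ : Function.Injective Ψ := by
    intro J K h
    simp only [Ψ, Sigma.mk.injEq, Prod.mk.injEq, heq_eq_eq] at h
    obtain ⟨⟨h1, h2⟩, h3⟩ := h
    have h4 : J.toRight = K.toRight := by
      rw [← Finset.toLeft_disjSum_toRight (u := J.toRight),
        ← Finset.toLeft_disjSum_toRight (u := K.toRight), h1, h2]
    rw [← Finset.toLeft_disjSum_toRight (u := J), ← Finset.toLeft_disjSum_toRight (u := K), h3, h4]
  let G : (Σ _ : Finset V × Finset V, Finset D) → ℕ := fun x =>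
    2 ^ (c * ((avail hit x.1.1).card + (if x.2.card = 0 then (avail hit x.1.2).card else 0)))
  have e1 : Z (hit' hit) (adj' hit adj) c = ∑ J ∈ ind (adj' hit adj), G (Ψ J) := by
    unfold Z
    apply Finset.sum_congr rfl
    intro J _
    rw [avail_card]
  have e2 : ∑ J ∈ ind (adj' hit adj), G (Ψ J) = ∑ x ∈ (ind (adj' hit adj)).image Ψ, G x := by
    rw [Finset.sum_image]
    intro a _ b _ h
    exact hΨ h
  have e3 : ∑ x ∈ (ind (adj' hit adj)).image Ψ, G x ≤
      ∑ x ∈ (ind adj ×ˢ ind adj).sigma (fun p => (avail hit p.1).powerset), G x := by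
    apply Finset.sum_le_sum_of_subset
    intro x hx
    rw [Finset.mem_image] at hx
    obtain ⟨J, hJ, rfl⟩ := hx
    obtain ⟨h1, h2, h3⟩ := mem_ind' hit adj J hJ
    rw [Finset.mem_sigma]
    refine ⟨?_, ?_⟩
    · rw [Finset.mem_product]; exact ⟨h1, h2⟩
    · rw [Finset.mem_powerset]; exact h3
  have e4 : ∀ p : Finset V × Finset V, ∑ T ∈ (avail hit p.1).powerset, G ⟨p, T⟩ ≤
      2 ^ (c * (avail hit p.1).card) * 2 ^ (c * (avail hit p.2).card) +
      2 ^ ((c + 1) * (avail hit p.1).card) * 2 ^ (0 * (avail hit p.2).card) := by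
    intro p
    have hG : ∀ T ∈ (avail hit p.1).powerset, G ⟨p, T⟩ ≤
        (if T = ∅ then 2 ^ (c * (avail hit p.1).card) * 2 ^ (c * (avail hit p.2).card) else 0) +
        2 ^ (c * (avail hit p.1).card) := by
      intro T _
      simp only [G, Finset.card_eq_zero]
      split_ifs with hT
      · rw [Nat.mul_add, pow_add]; exact Nat.le_add_right _ _
      · simp
    refine (Finset.sum_le_sum hG).trans ?_
    rw [Finset.sum_add_distrib, Finset.sum_const, Finset.card_powerset]
    apply Nat.add_le_add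
    · rw [Finset.sum_ite_eq']
      split_ifs
      · exact le_refl _
      · exact Nat.zero_le _
    · rw [smul_eq_mul, ← pow_add]
      simp only [zero_mul, pow_zero, mul_one]
      apply Nat.pow_le_pow_right (by norm_num)
      linarith
  rw [e1, e2]
  refine e3.trans ?_
  rw [Finset.sum_sigma]
  refine (Finset.sum_le_sum (fun p _ => e4 p)).trans ?_
  rw [Finset.sum_product]
  simp only [Finset.sum_add_distrib]
  apply le_of_eq
  congr 1
  · rw [sq]; unfold Z
    rw [Finset.sum_mul_sum]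
  · unfold Z
    rw [Finset.sum_mul_sum]

end step

theorem arith_step (c j : ℕ) (z z1 z0 : ℕ)
    (hz : z ≤ 2 ^ (2 ^ j - 1) * (2 ^ c + j) ^ (2 ^ j))
    (hz1 : z1 ≤ 2 ^ (2 ^ j - 1) * (2 ^ (c + 1) + j) ^ (2 ^ j))
    (hz0 : z0 ≤ 2 ^ (2 ^ j - 1) * (2 ^ 0 + j) ^ (2 ^ j)) :
    z ^ 2 + z1 * z0 ≤ 2 ^ (2 ^ (j + 1) - 1) * (2 ^ c + (j + 1)) ^ (2 ^ (j + 1)) := by
  have h1 : z ^ 2 ≤ (2 ^ (2 ^ j - 1) * (2 ^ c + j) ^ (2 ^ j)) ^ 2 := Nat.pow_le_pow_left hz 2
  have h2 : z1 * z0 ≤ (2 ^ (2 ^ j - 1) * (2 ^ (c + 1) + j) ^ (2 ^ j)) *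
      (2 ^ (2 ^ j - 1) * (2 ^ 0 + j) ^ (2 ^ j)) := Nat.mul_le_mul hz1 hz0
  have h3 : (2 ^ (2 ^ j - 1) * (2 ^ c + j) ^ (2 ^ j)) ^ 2 ≤
      (2 ^ (2 ^ j - 1)) ^ 2 * (2 ^ c + (j + 1)) ^ (2 ^ (j + 1)) := by
    rw [mul_pow]
    apply Nat.mul_le_mul_left
    rw [← pow_mul, ← pow_succ]
    apply Nat.pow_le_pow_left
    omega
  have h4 : (2 ^ (2 ^ j - 1) * (2 ^ (c + 1) + j) ^ (2 ^ j)) *
      (2 ^ (2 ^ j - 1) * (2 ^ 0 + j) ^ (2 ^ j)) ≤
      (2 ^ (2 ^ j - 1)) ^ 2 * (2 ^ c + (j + 1)) ^ (2 ^ (j + 1)) := by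
    have : (2 ^ (2 ^ j - 1) * (2 ^ (c + 1) + j) ^ (2 ^ j)) *
      (2 ^ (2 ^ j - 1) * (2 ^ 0 + j) ^ (2 ^ j)) =
      (2 ^ (2 ^ j - 1)) ^ 2 * ((2 ^ (c + 1) + j) * (1 + j)) ^ (2 ^ j) := by
      rw [mul_pow]; ring
    rw [this]
    apply Nat.mul_le_mul_left
    have e : (2 ^ c + (j + 1)) ^ (2 ^ (j + 1)) = ((2 ^ c + (j + 1)) ^ 2) ^ (2 ^ j) := by
      rw [← pow_mul, pow_succ 2 j, mul_comm]
    rw [e]
    apply Nat.pow_le_pow_left
    rw [pow_succ 2 c]
    nlinarith [Nat.zero_le (2 ^ c), Nat.zero_le j]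
  have h5 : 2 ^ (2 ^ (j + 1) - 1) = 2 * (2 ^ (2 ^ j - 1)) ^ 2 := by
    have hj : 1 ≤ 2 ^ j := Nat.one_le_two_pow
    rw [← pow_mul, ← pow_succ']
    congr 1
    rw [pow_succ 2 j]
    omega
  rw [h5]
  calc z ^ 2 + z1 * z0 ≤ (2 ^ (2 ^ j - 1)) ^ 2 * (2 ^ c + (j + 1)) ^ (2 ^ (j + 1)) +
      (2 ^ (2 ^ j - 1)) ^ 2 * (2 ^ c + (j + 1)) ^ (2 ^ (j + 1)) :=
        Nat.add_le_add (h1.trans h3) (h2.trans h4)
    _ = _ := by ring

/-! ### The system of levels -/

/-- position function of the levels after one step -/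
def vp' {V D : Type} (j : ℕ) (vp : V → ℕ) (dp : D → ℕ) : D ⊕ (V ⊕ V) → ℕ
  | Sum.inl b => dp b
  | Sum.inr (Sum.inl v) => vp v
  | Sum.inr (Sum.inr v) => vp v + 4 * 16 ^ j

/-- scale function of the levels after one step -/
def el' {V D : Type} (j : ℕ) (el : V → ℕ) : D ⊕ (V ⊕ V) → ℕ
  | Sum.inl _ => 3 * 16 ^ j
  | Sum.inr (Sum.inl v) => el v
  | Sum.inr (Sum.inr v) => el v

def dp' {D : Type} (j : ℕ) (dp : D → ℕ) : D ⊕ D → ℕ
  | Sum.inl b => dp b
  | Sum.inr b => dp b + 4 * 16 ^ j

/-- The system of levels. -/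
structure Sys (j : ℕ) where
  V : Type
  D : Type
  fV : Fintype V
  fD : Fintype D
  hit : V → D → Prop
  adj : V → V → Prop
  vp : V → ℕ
  el : V → ℕ
  dp : D → ℕ
  cardD : Fintype.card D = 2 ^ j
  cardV : 2 * Fintype.card V = j * 2 ^ j
  dp_lt : ∀ b, 15 * dp b + 4 ≤ 4 * 16 ^ j
  dp_inj : Function.Injective dp
  vp_lt : ∀ v, 15 * vp v + 4 ≤ 4 * 16 ^ j
  el_pos : ∀ v, 3 ≤ el v
  el_le : ∀ v, 16 * el v ≤ 3 * 16 ^ j
  hit_spec : ∀ v b, hit v b → vp v + el v < dp b ∧ dp b < vp v + 2 * el v
  adj_spec : ∀ u v, adj u v → vp v + el v < vp u ∧ vp u < vp v + 2 * el v ∧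
    vp u + 2 * el v < vp v + 2 * el u
  ord : ∀ u v, u ≠ v →
    (vp u + 2 * el v < vp v + 2 * el u ∧ vp u + 3 * el v < vp v + 3 * el u) ∨
    (vp v + 2 * el u < vp u + 2 * el v ∧ vp v + 3 * el u < vp u + 3 * el v)
  count : ∀ c, Z hit adj c ≤ 2 ^ (2 ^ j - 1) * (2 ^ c + j) ^ (2 ^ j)

theorem exists_sys (j : ℕ) : Nonempty (Sys j) := by
  induction j with
  | zero =>
    refine ⟨⟨Empty, Unit, inferInstance, inferInstance, fun v _ => v.elim, fun v _ => v.elim,
      fun v => v.elim, fun v => v.elim, fun _ => 0, rfl, rfl, ?_, ?_, ?_, ?_, ?_, ?_, ?_, ?_, ?_⟩⟩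
    · intro b; simp
    · intro a b _; rfl
    · intro v; exact v.elim
    · intro v; exact v.elim
    · intro v; exact v.elim
    · intro v; exact v.elim
    · intro v; exact v.elim
    · intro v; exact v.elim
    · intro c
      unfold Z
      have h1 : (ind (fun (v : Empty) (_ : Empty) => (v.elim : Prop))).card ≤ 1 := by
        refine (Finset.card_le_univ _).trans ?_
        simp
      have h2 : ∀ I ∈ ind (fun (v : Empty) (_ : Empty) => (v.elim : Prop)),
          2 ^ (c * (avail (fun (v : Empty) (_ : Unit) => (v.elim : Prop)) I).card) ≤ 2 ^ c := by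
        intro I _
        apply Nat.pow_le_pow_right (by norm_num)
        have : (avail (fun (v : Empty) (_ : Unit) => (v.elim : Prop)) I).card ≤ 1 := by
          refine (Finset.card_le_univ _).trans ?_
          simp
        nlinarith
      refine (Finset.sum_le_card_nsmul _ _ _ h2).trans ?_
      rw [smul_eq_mul]
      simp only [pow_zero, Nat.sub_self, one_mul, add_zero, pow_one]
      calc _ ≤ 1 * 2 ^ c := Nat.mul_le_mul_right _ h1
        _ = 2 ^ c := one_mul _
  | succ j ih =>
    obtain ⟨⟨V, D, fV, fD, hit, adj, vp, el, dp, cardD, cardV, dp_lt, dp_inj, vp_lt, el_pos,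
      el_le, hit_spec, adj_spec, ord, count⟩⟩ := ih
    have hpow : 16 ^ (j + 1) = 16 * 16 ^ j := by rw [pow_succ]; ring
    have hj : 1 ≤ 16 ^ j := Nat.one_le_pow _ _ (by norm_num)
    refine ⟨⟨D ⊕ (V ⊕ V), D ⊕ D, inferInstance, inferInstance, hit' hit, adj' hit adj,
      vp' j vp dp, el' j el, dp' j dp, ?_, ?_, ?_, ?_, ?_, ?_, ?_, ?_, ?_, ?_, ?_⟩⟩
    · rw [Fintype.card_sum, cardD, pow_succ]; ring
    · rw [Fintype.card_sum, Fintype.card_sum, cardD, pow_succ]
      nlinarith
    · rintro (b | b)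
      · have := dp_lt b
        simp only [dp']; omega
      · have := dp_lt b
        simp only [dp']; omega
    · rintro (b | b) (b' | b') h
      · simp only [dp'] at h
        rw [dp_inj h]
      · simp only [dp'] at h
        have := dp_lt b
        omega
      · simp only [dp'] at h
        have := dp_lt b'
        omega
      · simp only [dp'] at h
        have h' : dp b = dp b' := by omega
        rw [dp_inj h']
    · rintro (b | v | v)
      · have := dp_lt b
        simp only [vp']; omega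
      · have := vp_lt v
        simp only [vp']; omega
      · have := vp_lt v
        simp only [vp']; omega
    · rintro (b | v | v)
      · simp only [el']; omega
      · exact el_pos v
      · exact el_pos v
    · rintro (b | v | v)
      · simp only [el']; omega
      · have := el_le v
        simp only [el']; omega
      · have := el_le v
        simp only [el']; omega
    · rintro (b | v | v) (b' | b') h
      · exact h.elim
      · have h1 := dp_lt b
        have h2 := dp_lt b'
        simp only [vp', el', dp']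
        omega
      · exact hit_spec v b' h
      · exact h.elim
      · exact h.elim
      · have := hit_spec v b' h
        simp only [vp', el', dp']
        omega
    · rintro (b | u | u) (b' | v | v) h
      · exact h.elim
      · have h1 := hit_spec v b h
        have h2 := dp_lt b
        have h3 := el_le v
        simp only [vp', el']
        omega
      · exact h.elim
      · exact h.elim
      · exact adj_spec u v h
      · exact h.elim
      · exact h.elim
      · exact h.elim
      · have := adj_spec u v h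
        simp only [vp', el']
        omega
    · rintro (b | u | u) (b' | v | v) h
      · have hb : b ≠ b' := fun hb => h (by rw [hb])
        have hb' : dp b ≠ dp b' := fun hb' => hb (dp_inj hb')
        simp only [vp', el']
        omega
      · have h2 := dp_lt b
        have h3 := el_le v
        simp only [vp', el']
        omega
      · have h2 := dp_lt b
        have h3 := el_le v
        simp only [vp', el']
        omega
      · have h2 := dp_lt b'
        have h3 := el_le u
        simp only [vp', el']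
        omega
      · have hb : u ≠ v := fun hb => h (by rw [hb])
        exact ord u v hb
      · have h2 := vp_lt u
        have h3 := el_le v
        simp only [vp', el']
        omega
      · have h2 := dp_lt b'
        have h3 := el_le u
        simp only [vp', el']
        omega
      · have h2 := vp_lt v
        have h3 := el_le u
        simp only [vp', el']
        omega
      · have hb : u ≠ v := fun hb => h (by rw [hb])
        have := ord u v hb
        simp only [vp', el']
        omega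
    · intro c
      exact (Z_step hit adj c).trans (arith_step c j _ _ _ (count c) (count (c + 1)) (count 0))

theorem card_ind_le {j : ℕ} (S : Sys j) :
    letI := S.fV
    (ind S.adj).card ≤ 2 ^ (2 ^ j - 1) * (1 + j) ^ (2 ^ j) := by
  let _ := S.fV
  let _ := S.fD
  have h := S.count 0
  have h2 : Z S.hit S.adj 0 = (ind S.adj).card := by
    unfold Z
    simp
  rw [h2] at h
  simpa using h

/-! ### The Ramsey number is well defined, monotonicity -/

theorem card_of_mem_edges {f : MvPolynomial (Fin 6) ℝ} {N : ℕ} {v : Fin N → ℝ × ℝ}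
    {e : Finset (Fin N)} (he : e ∈ edges f v) : e.card = 3 := by
  obtain ⟨i, j, k, hij, hjk, rfl, _⟩ := he
  rw [Finset.card_eq_three]
  exact ⟨i, j, k, hij.ne, (hij.trans hjk).ne, hjk.ne, rfl⟩

theorem arrows_exists (f : MvPolynomial (Fin 6) ℝ) (s n : ℕ) : ∃ N, Arrows f s n N := by
  obtain ⟨N, hN⟩ := ramsey_exists 3 s n
  refine ⟨N, ?_⟩
  intro v _
  rcases hN (Finset.univ : Finset (Fin N)) (fun T => T ∈ edges f v) (by simp) with
    ⟨S, _, hS, hc⟩ | ⟨S, _, hS, hc⟩
  · exact Or.inl ⟨S, hS, hc⟩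
  · exact Or.inr ⟨S, hS, fun e he hes => hc e hes (card_of_mem_edges he) he⟩

theorem Arrows.mono {f : MvPolynomial (Fin 6) ℝ} {s n N N' : ℕ} (h : Arrows f s n N)
    (hN : N ≤ N') : Arrows f s n N' := by
  intro v hv
  let ι : Fin N ↪o Fin N' := Fin.castLEOrderEmb hN
  have hmap : ∀ e : Finset (Fin N), e.map ι.toEmbedding ∈ edges f v ↔
      e ∈ edges f (fun i => v (ι i)) := by
    intro e
    constructor
    · rintro ⟨i, j, k, hij, hjk, he, hf⟩
      have hi : i ∈ e.map ι.toEmbedding := by rw [he]; simp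
      have hj : j ∈ e.map ι.toEmbedding := by rw [he]; simp
      have hk : k ∈ e.map ι.toEmbedding := by rw [he]; simp
      rw [Finset.mem_map] at hi hj hk
      obtain ⟨i', _, rfl⟩ := hi
      obtain ⟨j', _, rfl⟩ := hj
      obtain ⟨k', _, rfl⟩ := hk
      refine ⟨i', j', k', ι.lt_iff_lt.mp hij, ι.lt_iff_lt.mp hjk, ?_, hf⟩
      apply Finset.map_injective ι.toEmbedding
      rw [he]
      simp [Finset.map_insert]
    · rintro ⟨i, j, k, hij, hjk, he, hf⟩
      refine ⟨ι i, ι j, ι k, ι.lt_iff_lt.mpr hij, ι.lt_iff_lt.mpr hjk, ?_, hf⟩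
      rw [he]
      simp [Finset.map_insert]
  rcases h (fun i => v (ι i)) (hv.comp ι.injective) with ⟨S, hS, hc⟩ | ⟨S, hS, hc⟩
  · refine Or.inl ⟨S.map ι.toEmbedding, by rw [Finset.card_map, hS], ?_⟩
    intro e he hcard
    obtain ⟨e', he', rfl⟩ := Finset.subset_map_iff.mp he
    rw [hmap]
    exact hc e' he' (by rwa [Finset.card_map] at hcard)
  · refine Or.inr ⟨S.map ι.toEmbedding, by rw [Finset.card_map, hS], ?_⟩
    intro e he hsub
    obtain ⟨e', he', rfl⟩ := Finset.subset_map_iff.mp hsub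
    rw [hmap] at he
    exact hc e' he he'

theorem lt_ramsey_of_not_arrows {f : MvPolynomial (Fin 6) ℝ} {s n N : ℕ}
    (h : ¬ Arrows f s n N) : N < ramsey f s n := by
  have hmem : ramsey f s n ∈ {N : ℕ | Arrows f s n N} :=
    Nat.sInf_mem (arrows_exists f s n)
  by_contra hcon
  push Not at hcon
  exact h (Arrows.mono hmem hcon)

/-! ### The lower bound -/

/-- upper bound for the number of independent sets of the system of rank `r` -/
def bound (r : ℕ) : ℕ := 2 ^ (2 ^ r - 1) * (1 + r) ^ (2 ^ r)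

theorem lower_bound (r n : ℕ) (hn : bound r < n) :
    ∃ h : ℕ, 2 * h = r * 2 ^ r ∧ 2 ^ h < ramsey poly 4 n := by
  obtain ⟨S⟩ := exists_sys r
  let _ := S.fV
  let _ := S.fD
  classical
  refine ⟨Fintype.card S.V, S.cardV, ?_⟩
  apply lt_ramsey_of_not_arrows
  intro hA
  -- co-positions
  let a : S.V → ℕ := fun v => 16 ^ r - S.vp v
  have ha : ∀ v, a v + S.vp v = 16 ^ r := by
    intro v
    have := S.vp_lt v
    simp only [a]; omega
  have hord : Ordered a S.el := by
    intro u v huv
    have h1 := ha u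
    have h2 := ha v
    have h3 := S.ord u v huv
    omega
  have hl : ∀ v, 0 < S.el v := by
    intro v
    have := S.el_pos v
    omega
  have hadj : ∀ u v, S.adj u v → a v + 2 * S.el v < a u + 2 * S.el u ∧ a u + S.el v < a v ∧
      a v < a u + 2 * S.el v := by
    intro u v huv
    have h1 := ha u
    have h2 := ha v
    have h3 := S.adj_spec u v huv
    omega
  have hcount : (Finset.univ.filter (fun I : Finset S.V => ∀ u ∈ I, ∀ v ∈ I, ¬ S.adj u v)).card
      < n := by
    refine lt_of_le_of_lt ?_ hn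
    have h1 : (Finset.univ.filter (fun I : Finset S.V => ∀ u ∈ I, ∀ v ∈ I, ¬ S.adj u v)) =
        ind S.adj := by
      ext I
      simp [ind]
    rw [h1]
    exact card_ind_le S
  obtain ⟨pts, hinj, h4, hn'⟩ := construction (B := 2 ^ 20) (le_refl _) hord hl S.adj hadj n _ rfl
    hcount
  rcases hA pts hinj with h | h
  · exact h4 h
  · exact hn' h

theorem bound_mono {r r' : ℕ} (h : r ≤ r') : bound r ≤ bound r' := by
  unfold bound
  have h1 : 2 ^ r ≤ 2 ^ r' := Nat.pow_le_pow_right (by norm_num) h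
  apply Nat.mul_le_mul
  · exact Nat.pow_le_pow_right (by norm_num) (by omega)
  · exact (Nat.pow_le_pow_left (by omega) _).trans (Nat.pow_le_pow_right (by omega) h1)

theorem le_bound (r : ℕ) : r ≤ bound r := by
  unfold bound
  have h1 : 1 ≤ 2 ^ (2 ^ r - 1) := Nat.one_le_two_pow
  have h2 : 1 + r ≤ (1 + r) ^ (2 ^ r) := Nat.le_self_pow (by positivity) _
  nlinarith

theorem bound_succ_le (r : ℕ) : bound (r + 1) ≤ (2 * (r + 2)) ^ (2 ^ (r + 1)) := by
  unfold bound
  rw [mul_pow]
  apply Nat.mul_le_mul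
  · exact Nat.pow_le_pow_right (by norm_num) (Nat.sub_le _ _)
  · exact Nat.pow_le_pow_left (by omega) _

theorem eventually_small (c : ℕ) : ∃ r₀ : ℕ, ∀ r ≥ r₀, (4 * (r + 2)) ^ (4 * c) ≤ 2 ^ r := by
  have h := tendsto_pow_const_div_const_pow_of_one_lt (4 * c) (r := (2 : ℝ)) (by norm_num)
  have h2 : (0 : ℝ) < 1 / 12 ^ (4 * c) := by positivity
  have h3 := (h.eventually (gt_mem_nhds h2))
  rw [Filter.eventually_atTop] at h3
  obtain ⟨r₁, hr₁⟩ := h3
  refine ⟨max r₁ 1, ?_⟩
  intro r hr
  have hr1 : r₁ ≤ r := le_trans (le_max_left _ _) hr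
  have hr2 : 1 ≤ r := le_trans (le_max_right _ _) hr
  have h4 := hr₁ r hr1
  have h5 : (0 : ℝ) < 2 ^ r := by positivity
  have h6 : (0 : ℝ) < 12 ^ (4 * c) := by positivity
  rw [div_lt_div_iff₀ h5 h6, one_mul] at h4
  have h7 : ((4 * (r + 2)) ^ (4 * c) : ℕ) ≤ (12 * r) ^ (4 * c) := Nat.pow_le_pow_left (by omega) _
  have h8 : (((12 * r) ^ (4 * c) : ℕ) : ℝ) < 2 ^ r := by
    push_cast
    rw [mul_pow, mul_comm]
    exact h4
  have h9 : (12 * r) ^ (4 * c) < 2 ^ r := by exact_mod_cast h8
  exact h7.trans h9.le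

theorem poly_bound (c : ℕ) :
    ∃ n₀ : ℕ, ∀ n ≥ n₀, c * n ^ c < ramsey poly 4 n := by
  obtain ⟨r₀, hr₀⟩ := eventually_small c
  refine ⟨bound r₀ + 1, ?_⟩
  intro n hn
  have hex : ∃ r, n ≤ bound r := ⟨n, le_bound n⟩
  classical
  obtain ⟨r', hr', hmin⟩ : ∃ r', n ≤ bound r' ∧ ∀ m < r', ¬ n ≤ bound m :=
    ⟨Nat.find hex, Nat.find_spec hex, fun m hm => Nat.find_min hex hm⟩
  have hgt : r₀ < r' := by
    by_contra hcon
    push Not at hcon
    have := bound_mono hcon
    omega
  obtain ⟨r, rfl⟩ : ∃ r, r' = r + 1 := ⟨r' - 1, by omega⟩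
  have h1 : bound r < n := not_le.mp (hmin r (Nat.lt_succ_self r))
  obtain ⟨h, hh, hlt⟩ := lower_bound r n h1
  refine lt_of_le_of_lt ?_ hlt
  have hsmall := hr₀ r (by omega)
  have e1 : c * n ^ c ≤ 2 ^ c * ((2 * (r + 2)) ^ (2 ^ (r + 1))) ^ c := by
    apply Nat.mul_le_mul
    · exact Nat.lt_two_pow_self.le
    · exact Nat.pow_le_pow_left (hr'.trans (bound_succ_le r)) _
  have e2 : 2 ^ c * ((2 * (r + 2)) ^ (2 ^ (r + 1))) ^ c ≤ (4 * (r + 2)) ^ (2 ^ (r + 1) * c) := by
    have : (4 * (r + 2)) ^ (2 ^ (r + 1) * c) = 2 ^ (2 ^ (r + 1) * c) *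
        ((2 * (r + 2)) ^ (2 ^ (r + 1))) ^ c := by
      rw [← pow_mul, ← mul_pow]; congr 1; ring
    rw [this]
    apply Nat.mul_le_mul_right
    apply Nat.pow_le_pow_right (by norm_num)
    have : 1 ≤ 2 ^ (r + 1) := Nat.one_le_two_pow
    nlinarith
  have e3 : ((4 * (r + 2)) ^ (2 ^ (r + 1) * c)) ^ 2 ≤ (2 ^ h) ^ 2 := by
    have f1 : ((4 * (r + 2)) ^ (2 ^ (r + 1) * c)) ^ 2 = ((4 * (r + 2)) ^ (4 * c)) ^ (2 ^ r) := by
      rw [← pow_mul, ← pow_mul]; congr 1; rw [pow_succ]; ring
    have f2 : (2 ^ h) ^ 2 = (2 ^ r) ^ (2 ^ r) := by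
      rw [← pow_mul, ← pow_mul, mul_comm h 2, hh]
    rw [f1, f2]
    exact Nat.pow_le_pow_left hsmall _
  have e4 : (4 * (r + 2)) ^ (2 ^ (r + 1) * c) ≤ 2 ^ h := by
    by_contra hcon
    push Not at hcon
    exact absurd e3 (not_le.mpr (Nat.pow_lt_pow_left hcon (by norm_num)))
  exact (e1.trans e2).trans e4

/-- **Main theorem.**  There is a polynomial `f` in `6` real variables such that the semi-algebraic
Ramsey number `R_f^{(3)}(4, n)` of point sequences of the plane grows faster than every polynomial: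
for every real `C` one has `R_f^{(3)}(4, n) > C * n ^ C` for all sufficiently large `n`. -/
theorem result : ∃ f : MvPolynomial (Fin 6) ℝ, ∀ C : ℝ, ∃ n₀ : ℕ, ∀ n ≥ n₀,
    C * (n : ℝ) ^ C < (ramsey f 4 n : ℝ) := by
  refine ⟨poly, ?_⟩
  intro C
  obtain ⟨c, hc⟩ := exists_nat_ge (max C 1)
  have hC : C ≤ c := (le_max_left _ _).trans hc
  have hc1 : 1 ≤ c := by
    have : (1 : ℝ) ≤ c := (le_max_right _ _).trans hc
    exact_mod_cast this
  obtain ⟨n₀, hn₀⟩ := poly_bound c
  refine ⟨max n₀ 1, ?_⟩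
  intro n hn
  have hn1 : n₀ ≤ n := (le_max_left _ _).trans hn
  have hn2 : 1 ≤ n := (le_max_right _ _).trans hn
  have h1 : (1 : ℝ) ≤ n := by exact_mod_cast hn2
  have h2 : (n : ℝ) ^ C ≤ (n : ℝ) ^ c := by
    rw [← Real.rpow_natCast]
    exact Real.rpow_le_rpow_of_exponent_le h1 hC
  have h3 : 0 ≤ (n : ℝ) ^ C := by positivity
  have h4 : ((c * n ^ c : ℕ) : ℝ) < (ramsey poly 4 n : ℝ) := by
    exact_mod_cast hn₀ n hn1
  push_cast at h4
  calc C * (n : ℝ) ^ C ≤ c * (n : ℝ) ^ C := mul_le_mul_of_nonneg_right hC h3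
    _ ≤ c * (n : ℝ) ^ c := mul_le_mul_of_nonneg_left h2 (by positivity)
    _ < _ := h4

end Pool.Agent.Results.MP_654b32_co.SuperpolyRamsey
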